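import Mathlib
import Pool.Agent.H994R4.TorusEnd

/-!
# A complex cycle on a complex torus that is not locally an average of subvarieties

Setting (file `Pool/Agent/H994R4/TorusStmt.lean`): the compact complex surface is a complex torus
`M = ℂ² ⧸ Γ`; forms on `M` are the `Γ`-periodic forms on `ℂ²`; currents are linear functionals on
forms, continuous for the `C^∞` topology; the complex cycles of dimension `k = 1` are the closed
`2`-currents in the (weakly) closed convex cone generated by the Dirac currents `α ↦ α_x(v ∧ i v)`.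
The integration currents `[V]` of the irreducible closed analytic curves `V` of an open set `U` are
among the functionals `α ↦ ∫_S u^*α`, `S` a connected Riemann surface and `u : S → U` a proper
holomorphic map (normalization of `V`).

The counterexample: `Γ = {(x + ip, y + iq) : x, y, p, q ∈ ℤ, 3 ∣ x + y}` and
`c(α) = ∑ v, ∫_{r ∈ [0,1], s ∈ [0,1]²} α_{r v + i s}(v, i v) dr ds`, the sum being over
`v = (-1,0), (0,-1), (1,1)`, a current supported by the honeycomb Levi flat hypersurface
`{x : Re x ∈ [0,1] v + Re Γ}`.
-/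

set_option autoImplicit false

open TopologicalSpace
open Pool.Agent.H994R4.TorusStmt

namespace Pool.Agent.Results.MP_65ddbc_gt.HoneycombTorus

/-- There are a lattice `Γ` in `ℂ²` and a complex cycle `c` of dimension one on the compact complex
torus `M = ℂ² ⧸ Γ` such that on no open neighbourhood `U` of the point `0` of `M` is `c` an average
of complex curves of `U`. -/
theorem result :
    ∃ Γ : AddSubgroup (ℂ × ℂ), DiscreteTopology Γ ∧ CompactSpace ((ℂ × ℂ) ⧸ Γ) ∧
      ∃ c : (ℂ × ℂ → Covector 2) → ℝ,
        TorusCurrent Γ 2 c ∧ TorusCycle Γ 1 c ∧ TorusPositive Γ c ∧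
        ∀ U : Opens ((ℂ × ℂ) ⧸ Γ), (0 : (ℂ × ℂ) ⧸ Γ) ∈ U → ¬ TorusAverage Γ U c :=
  ⟨Pool.Agent.H994R4.Torus.lat, Pool.Agent.H994R4.Torus.discrete_lat,
    Pool.Agent.H994R4.Torus.compactM, Pool.Agent.H994R4.Torus.honeyF,
    Pool.Agent.H994R4.Torus.honeyF_current, Pool.Agent.H994R4.Torus.honeyF_cycle,
    Pool.Agent.H994R4.Torus.honeyF_positive,
    fun U hU => Pool.Agent.H994R4.Torus.not_torusAverage U hU⟩

end Pool.Agent.Results.MP_65ddbc_gt.HoneycombTorus
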